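import Pool.Agent.H.MP_52010b_lc.Hard

/-!
Finding a popular pairwise stable matching of maximum size is NP-hard, even when all quotas are
two.
-/

namespace Pool.Agent.Results.MP_52010b_lc.PopularNPHard

open Turing
open Pool.Agent.H.MP_52010b_lc

/-- Each language `L` in NP reduces in polynomial time to the following decision version of
Problem B: given an instance in which every hospital has lower quota and upper quota two, and a
number `K`, is there a popular pairwise stable matching with at least `K` assigned residents? -/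
theorem result (Γ : Type) [Fintype Γ] (L : Set (List Γ)) (hL : InNP L) :
    ∃ f : List Γ → Inst × ℕ,
      Nonempty (TM2ComputableInPolyTime (id : List Γ → List Γ) encode f) ∧
      (∀ x, ∀ h, (f x).1.low h = 2 ∧ (f x).1.up h = 2) ∧
      ∀ x, x ∈ L ↔ ∃ (M : (f x).1.Asg) (O : Set (Fin (f x).1.nH)),
        Inst.PopularStable M O ∧ (f x).2 ≤ Inst.size M := by
  obtain ⟨f, h1, h2, h3, h4⟩ := reduction Γ L hL
  refine ⟨f, h1, h2, fun x => ?_⟩
  rw [h4 x]
  constructor
  · rintro ⟨M, O, hM, hs⟩
    exact ⟨M, O, ⟨hM, fun h hp => absurd hp (h3 x h)⟩, hs⟩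
  · rintro ⟨M, O, hM, hs⟩
    exact ⟨M, O, hM.1, hs⟩

end Pool.Agent.Results.MP_52010b_lc.PopularNPHard
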